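import Pool.Agent.TH178.MZ.Quad

/-! Chords of the conics on a double cover `w² = f(t)`, `f` of degree at most two in each
variable. -/

set_option autoImplicit false

namespace Pool.Agent.TH178.WA

open MvPolynomial Pool.Agent.TH178.MZ

variable {F : Type} [Field F] {τ : Type}

/-- The coefficient of `s²` in `f(t + s e_i)`. -/
noncomputable def aa (f : MvPolynomial τ F) (i : τ) (y : Option τ → F) : F :=
  eval (fun j => y (some j)) (pderiv i (pderiv i f)) / 2

/-- The coefficient of `s` in `f(t + s e_i)`. -/
noncomputable def bb (f : MvPolynomial τ F) (i : τ) (y : Option τ → F) : F :=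
  eval (fun j => y (some j)) (pderiv i f)

/-- The discriminant of the conic `w² = f(t + s e_i)` through the point `y`. -/
noncomputable def disc (f : MvPolynomial τ F) (i : τ) (y : Option τ → F) : F :=
  bb f i y ^ 2 - 4 * aa f i y * y none ^ 2

theorem quadratic [CharZero F] [Fintype τ] [DecidableEq τ] (f : MvPolynomial τ F) (i : τ)
    (hf : f.degreeOf i ≤ 2) (t : τ → F) (s : F) :
    eval (Function.update t i (t i + s)) f =
      eval t (pderiv i (pderiv i f)) / 2 * s ^ 2 + eval t (pderiv i f) * s + eval t f := by
  let q : Polynomial F := aeval (fun j => if j = i then Polynomial.C (t i) + Polynomial.X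
      else Polynomial.C (t j)) f
  have hq : q.natDegree ≤ 2 := (natDegree_line t i f).trans hf
  have h0 : q.coeff 0 = eval t f := by
    rw [Polynomial.coeff_zero_eq_eval_zero, eval_line, add_zero, Function.update_eq_self]
  have h1 : q.coeff 1 = eval t (pderiv i f) := by
    have h2 := congrArg (Polynomial.eval 0) (derivative_line t i f)
    rw [eval_line, add_zero, Function.update_eq_self] at h2
    rw [← h2, ← Polynomial.coeff_zero_eq_eval_zero, Polynomial.coeff_derivative]
    simp [q]
  have h2 : q.coeff 2 = eval t (pderiv i (pderiv i f)) / 2 := by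
    have h3 := congrArg (Polynomial.eval 0) (derivative_line t i (pderiv i f))
    rw [eval_line, add_zero, Function.update_eq_self, ← derivative_line] at h3
    rw [← h3, ← Polynomial.coeff_zero_eq_eval_zero, Polynomial.coeff_derivative,
      Polynomial.coeff_derivative]
    simp only [q, Nat.cast_zero, zero_add, mul_one, Nat.cast_one]
    ring
  rw [← eval_line, ← h0, ← h1, ← h2]
  show q.eval s = _
  rw [Polynomial.eval_eq_sum_range' (Nat.lt_succ_of_le hq), Finset.sum_range_succ,
    Finset.sum_range_succ, Finset.sum_range_one]
  ring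

/-- The point `y + (w', s e_i)`. -/
def shift [DecidableEq τ] (i : τ) (y : Option τ → F) (w s : F) : Option τ → F := fun l =>
  match l with
  | none => y none + w
  | some j => if j = i then y (some j) + s else y (some j)

theorem shift_none [DecidableEq τ] (i : τ) (y : Option τ → F) (w s : F) :
    shift i y w s none = y none + w := rfl

theorem shift_some [DecidableEq τ] (i : τ) (y : Option τ → F) (w s : F) :
    (fun j => shift i y w s (some j)) =
      Function.update (fun j => y (some j)) i (y (some i) + s) := by
  funext j
  rw [Function.update_apply]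
  show (if j = i then y (some j) + s else y (some j)) = _
  by_cases h : j = i
  · subst h; simp
  · simp [h]

theorem shift_mem [CharZero F] [Fintype τ] [DecidableEq τ] {f : MvPolynomial τ F} {i : τ}
    (hf : f.degreeOf i ≤ 2) {y : Option τ → F} (hy : y ∈ cover f) (w s : F) :
    shift i y w s ∈ cover f ↔ (y none + w) ^ 2 = aa f i y * s ^ 2 + bb f i y * s + y none ^ 2 := by
  have h1 : y none ^ 2 = eval (fun j => y (some j)) f := hy
  have h2 : shift i y w s ∈ cover f ↔
      (y none + w) ^ 2 = eval (fun j => shift i y w s (some j)) f := Iff.rfl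
  rw [h2, shift_some, quadratic f i hf, h1]
  rfl

/-- The second point of the conic in the direction `i` on the line through `y` with the slope
`(lam, mu)`. -/
noncomputable def chord [DecidableEq τ] (f : MvPolynomial τ F) (i : τ) (y : Option τ → F)
    (lam mu : F) : Option τ → F :=
  shift i y (lam * ((bb f i y * mu - 2 * y none * lam) / (lam ^ 2 - aa f i y * mu ^ 2)))
    (mu * ((bb f i y * mu - 2 * y none * lam) / (lam ^ 2 - aa f i y * mu ^ 2)))

theorem chord_mem [CharZero F] [Fintype τ] [DecidableEq τ] {f : MvPolynomial τ F} {i : τ}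
    (hf : f.degreeOf i ≤ 2) {y : Option τ → F} (hy : y ∈ cover f) {lam mu : F}
    (h : lam ^ 2 - aa f i y * mu ^ 2 ≠ 0) : chord f i y lam mu ∈ cover f := by
  obtain ⟨ρ, hρ⟩ : ∃ ρ, ρ = (bb f i y * mu - 2 * y none * lam) / (lam ^ 2 - aa f i y * mu ^ 2) :=
    ⟨_, rfl⟩
  have h1 : ρ * (lam ^ 2 - aa f i y * mu ^ 2) = bb f i y * mu - 2 * y none * lam := by
    rw [hρ, div_mul_cancel₀ _ h]
  rw [chord, ← hρ, shift_mem hf hy]
  linear_combination ρ * h1

theorem shift_zero [DecidableEq τ] (i : τ) (y : Option τ → F) : shift i y 0 0 = y := by
  funext l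
  match l with
  | none => exact add_zero _
  | some j =>
    show (if j = i then y (some j) + 0 else y (some j)) = _
    split_ifs
    · exact add_zero _
    · rfl

/-- Every point of a smooth conic is a chord point. -/
theorem exists_chord [CharZero F] [Fintype τ] [DecidableEq τ] {f : MvPolynomial τ F} {i : τ}
    (hf : f.degreeOf i ≤ 2) {y : Option τ → F} (hy : y ∈ cover f) (hd : disc f i y ≠ 0)
    {w s : F} (h : shift i y w s ∈ cover f) :
    ∃ lam mu : F, lam ^ 2 - aa f i y * mu ^ 2 ≠ 0 ∧ chord f i y lam mu = shift i y w s := by
  rw [shift_mem hf hy] at h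
  by_cases h0 : w = 0 ∧ s = 0
  · obtain ⟨rfl, rfl⟩ := h0
    refine ⟨bb f i y, 2 * y none, ?_, ?_⟩
    · intro h1
      apply hd
      rw [disc]
      linear_combination h1
    · rw [chord]
      congr 1
      · have : bb f i y * (2 * y none) - 2 * y none * bb f i y = 0 := by ring
        rw [this, zero_div, mul_zero]
      · have : bb f i y * (2 * y none) - 2 * y none * bb f i y = 0 := by ring
        rw [this, zero_div, mul_zero]
  · have h1 : w ^ 2 - aa f i y * s ^ 2 = bb f i y * s - 2 * y none * w := by
      linear_combination h
    have h2 : w ^ 2 - aa f i y * s ^ 2 ≠ 0 := by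
      intro h3
      have h4 : bb f i y * s - 2 * y none * w = 0 := by rw [← h1, h3]
      have h5 : disc f i y * s ^ 2 = 0 := by
        rw [disc]
        linear_combination (bb f i y * s + 2 * y none * w) * h4 + 4 * y none ^ 2 * h3
      have hs : s = 0 := by
        rcases mul_eq_zero.1 h5 with h6 | h6
        · exact absurd h6 hd
        · exact pow_eq_zero_iff (two_ne_zero) |>.1 h6
      rw [hs] at h3
      have hw : w = 0 := by
        have : w ^ 2 = 0 := by linear_combination h3
        exact pow_eq_zero_iff (two_ne_zero) |>.1 this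
      exact h0 ⟨hw, hs⟩
    refine ⟨w, s, h2, ?_⟩
    rw [chord, ← h1, div_self h2, mul_one, mul_one]

theorem aa_shift [CharZero F] [Fintype τ] [DecidableEq τ] {f : MvPolynomial τ F} {i : τ}
    (hf : f.degreeOf i ≤ 2) (y : Option τ → F) (w s : F) :
    aa f i (shift i y w s) = aa f i y ∧ bb f i (shift i y w s) = 2 * aa f i y * s + bb f i y := by
  have key : ∀ r : F, aa f i (shift i y w s) * r ^ 2 + bb f i (shift i y w s) * r +
      eval (fun j => shift i y w s (some j)) f =
      aa f i y * (s + r) ^ 2 + bb f i y * (s + r) + eval (fun j => y (some j)) f := by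
    intro r
    have h1 := quadratic f i hf (fun j => shift i y w s (some j)) r
    have h2 := quadratic f i hf (fun j => y (some j)) (s + r)
    have h3 : Function.update (fun j => shift i y w s (some j)) i (shift i y w s (some i) + r) =
        Function.update (fun j => y (some j)) i (y (some i) + (s + r)) := by
      rw [shift_some, Function.update_idem]
      have h4 : shift i y w s (some i) = y (some i) + s := by
        show (if i = i then y (some i) + s else y (some i)) = _
        rw [if_pos rfl]
      rw [h4, add_assoc]
    rw [h3, h2] at h1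
    exact h1.symm
  have k0 := key 0
  have k1 := key 1
  have k2 := key (-1)
  have h2 : (2 : F) ≠ 0 := two_ne_zero
  constructor
  · apply mul_left_cancel₀ h2
    linear_combination k1 + k2 - 2 * k0
  · apply mul_left_cancel₀ h2
    linear_combination k1 - k2

theorem disc_shift [CharZero F] [Fintype τ] [DecidableEq τ] {f : MvPolynomial τ F} {i : τ}
    (hf : f.degreeOf i ≤ 2) {y : Option τ → F} (hy : y ∈ cover f) {w s : F}
    (h : shift i y w s ∈ cover f) : disc f i (shift i y w s) = disc f i y := by
  obtain ⟨h1, h2⟩ := aa_shift hf y w s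
  rw [shift_mem hf hy] at h
  rw [disc, disc, h1, h2, shift_none]
  linear_combination (-4 * aa f i y) * h

theorem shift_neg [DecidableEq τ] (i : τ) (y : Option τ → F) (w s : F) :
    shift i (shift i y w s) (-w) (-s) = y := by
  funext l
  match l with
  | none =>
    show (y none + w) + -w = y none
    ring
  | some j =>
    show (if j = i then (if j = i then y (some j) + s else y (some j)) + -s
      else (if j = i then y (some j) + s else y (some j))) = y (some j)
    by_cases h : j = i
    · rw [if_pos h, if_pos h]; ring
    · rw [if_neg h, if_neg h]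

/-! ### Change of the field -/

variable {L : Type} [Field L] (σ : F →+* L)

theorem eval_map_comp (f : MvPolynomial τ F) (t : τ → F) :
    eval (fun j => σ (t j)) (map σ f) = σ (eval t f) := by
  rw [eval_map]
  exact (MvPolynomial.eval₂_comp σ t f).symm

theorem map_mem_cover {f : MvPolynomial τ F} {y : Option τ → F} (hy : y ∈ cover f) :
    (fun l => σ (y l)) ∈ cover (map σ f) := by
  show σ (y none) ^ 2 = eval (fun j => σ (y (some j))) (map σ f)
  rw [eval_map_comp, ← map_pow, show y none ^ 2 = _ from hy]

theorem bb_map (f : MvPolynomial τ F) (i : τ) (y : Option τ → F) :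
    bb (map σ f) i (fun l => σ (y l)) = σ (bb f i y) := by
  rw [bb, bb, pderiv_map, eval_map_comp]

theorem aa_map (f : MvPolynomial τ F) (i : τ) (y : Option τ → F) :
    aa (map σ f) i (fun l => σ (y l)) = σ (aa f i y) := by
  rw [aa, aa, pderiv_map, pderiv_map, eval_map_comp, map_div₀, map_ofNat]

theorem disc_map (f : MvPolynomial τ F) (i : τ) (y : Option τ → F) :
    disc (map σ f) i (fun l => σ (y l)) = σ (disc f i y) := by
  rw [disc, disc, aa_map, bb_map, map_sub, map_mul, map_mul, map_pow, map_pow, map_ofNat]

theorem shift_map [DecidableEq τ] (i : τ) (y : Option τ → F) (w s : F) :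
    (fun l => σ (shift i y w s l)) = shift i (fun l => σ (y l)) (σ w) (σ s) := by
  funext l
  match l with
  | none => exact map_add σ _ _
  | some j =>
    show σ (if j = i then y (some j) + s else y (some j)) =
      (if j = i then σ (y (some j)) + σ s else σ (y (some j)))
    split_ifs
    · exact map_add σ _ _
    · rfl

theorem chord_map [DecidableEq τ] (f : MvPolynomial τ F) (i : τ) (y : Option τ → F)
    (lam mu : F) : (fun l => σ (chord f i y lam mu l)) =
      chord (map σ f) i (fun l => σ (y l)) (σ lam) (σ mu) := by
  rw [chord, chord, shift_map, aa_map, bb_map]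
  simp only [map_mul, map_div₀, map_sub, map_pow, map_ofNat]

theorem degreeOf_map_le (f : MvPolynomial τ F) (i : τ) (hf : f.degreeOf i ≤ 2) :
    (map σ f).degreeOf i ≤ 2 := by
  rw [degreeOf_le_iff] at hf ⊢
  intro m hm
  exact hf m (support_map_subset σ f hm)

end Pool.Agent.TH178.WA
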