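import Pool.Agent.TH178.WA.Reach
import Pool.Agent.TH178.MZ.Multi

/-! The closure of the `K`-points of a double cover of a product of projective spaces, in
multihomogeneous coordinates. -/

set_option autoImplicit false

namespace Pool.Agent.TH178.WA

open MvPolynomial Pool.Agent.TH178.MZ Filter Topology

variable {K : Type} [Field K] [CharZero K] {V : Type} {L : V → Type}
  [∀ v, NontriviallyNormedField (L v)] (σ : ∀ v, K →+* L v) {r : ℕ} {a : Fin r → ℕ}

/-- `x` is a family, indexed by the places `v`, of multihomogeneous coordinates of `L v`-points of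
the double cover `w² = F`. It lies in `Adherent σ F` if this family of points is in the closure of
the set of the `K`-points of the double cover: in every neighbourhood of `x` there is a family of
multihomogeneous coordinates of one and the same `K`-point. -/
def Adherent (F : MvPolynomial (Idx a) K) : Set (∀ v, Option (Idx a) → L v) :=
  {x | ∀ U ∈ 𝓝 x, ∃ y ∈ cover F, Proper y ∧ ∃ c : ∀ v, Fin r → L v, (∀ v k, c v k ≠ 0) ∧
    (fun v => scale (weight a) (c v) (fun l => σ v (y l))) ∈ U}

/-- The point `y` of the double cover `w² = g` is smooth: `w` or a partial derivative of `g` does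
not vanish at `y`. -/
def IsSmoothPoint {L₀ : Type} [Field L₀] (g : MvPolynomial (Idx a) L₀) (y : Option (Idx a) → L₀) :
    Prop :=
  y none ≠ 0 ∨ ∃ l, eval (fun j => y (some j)) (pderiv l g) ≠ 0

/-- The points `y` and `z` of the double cover `w² = g` differ only in the coordinates `w` and
`x_l`, and the conic `w² = g(y + s e_l)`, on which they both lie, has a discriminant different
from `0`. -/
def OnSmoothConic {L₀ : Type} [Field L₀] (g : MvPolynomial (Idx a) L₀) (l : Idx a)
    (y z : Option (Idx a) → L₀) : Prop :=
  (∀ j, j ≠ l → z (some j) = y (some j)) ∧ disc g l y ≠ 0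

omit [CharZero K] in
theorem isOpen_proper_pi [Finite V] (a : Fin r → ℕ) :
    IsOpen {x : ∀ v, Option (Idx a) → L v | ∀ v, Proper (x v)} := by
  have h : {x : ∀ v, Option (Idx a) → L v | ∀ v, Proper (x v)} =
      ⋂ v, (fun x : ∀ v, Option (Idx a) → L v => x v) ⁻¹' {y | Proper y} := by
    ext x
    simp
  rw [h]
  exact isOpen_iInter_of_finite fun v => (isOpen_proper a).preimage (continuous_apply v)

omit [CharZero K] in
theorem adherent_iff (hσ : DenseRange fun (x : K) (v : V) => σ v x) [Nonempty V]
    {F : MvPolynomial (Idx a) K} (hF : IsMultiQuadratic F) {x : ∀ v, Option (Idx a) → L v}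
    (hx : ∀ v, Proper (x v)) : x ∈ Adherent σ F ↔ x ∈ Lim σ F := by
  classical
  obtain ⟨v₀⟩ := (inferInstance : Nonempty V)
  constructor
  · intro h
    rw [Lim, mem_closure_iff_nhds]
    intro U hU
    obtain ⟨y, hy, -, c, hc, hcU⟩ := h (interior U) (interior_mem_nhds.2 hU)
    -- replace `c` by an element of `K`
    let e : (Fin r → ∀ v, L v) → ∀ v, Option (Idx a) → L v := fun d v =>
      scale (weight a) (fun k => d k v) (fun l => σ v (y l))
    have he : Continuous e := by
      refine continuous_pi fun v => ?_
      exact (continuous_scale (weight a) _).comp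
        (continuous_pi fun k => (continuous_apply v).comp (continuous_apply k))
    have hdense : DenseRange fun (t : Fin r → K) (k : Fin r) (v : V) => σ v (t k) :=
      DenseRange.piMap fun _ => hσ
    have hopen : IsOpen (e ⁻¹' interior U ∩ {d : Fin r → ∀ v, L v | ∀ k, d k v₀ ≠ 0}) := by
      refine (isOpen_interior.preimage he).inter ?_
      have h1 : {d : Fin r → ∀ v, L v | ∀ k, d k v₀ ≠ 0} =
          ⋂ k, {d : Fin r → ∀ v, L v | d k v₀ ≠ 0} := by
        ext d
        simp
      rw [h1]
      exact isOpen_iInter_of_finite fun k =>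
        isOpen_ne_fun ((continuous_apply v₀).comp (continuous_apply k)) continuous_const
    obtain ⟨t, ht⟩ := hdense.exists_mem_open hopen ⟨fun k v => c v k, hcU, fun k => hc v₀ k⟩
    refine ⟨_, interior_subset ht.1, scale (weight a) t y, scale_cover hF y hy t, ?_⟩
    funext v
    exact map_scale (σ v) (weight a) t y
  · intro h U hU
    have hU' : U ∩ {z : ∀ v, Option (Idx a) → L v | Proper (z v₀)} ∈ 𝓝 x := by
      refine inter_mem hU ?_
      have h1 : IsOpen ((fun z : ∀ v, Option (Idx a) → L v => z v₀) ⁻¹' {y | Proper y}) :=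
        (isOpen_proper a).preimage (continuous_apply v₀)
      exact h1.mem_nhds (show Proper (x v₀) from hx v₀)
    rw [Lim, mem_closure_iff_nhds] at h
    obtain ⟨_, hz, y, hy, rfl⟩ := h _ hU'
    refine ⟨y, hy, ?_, fun _ _ => 1, fun _ _ => one_ne_zero, ?_⟩
    · intro i
      obtain ⟨j, hj⟩ := hz.2 i
      refine ⟨j, fun h0 => hj ?_⟩
      show σ v₀ (y (some ⟨i, j⟩)) = 0
      rw [h0, map_zero]
    · have h1 : (fun v => scale (weight a) (fun _ => (1 : L v)) (fun l => σ v (y l))) =
          diag σ y := by
        funext v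
        exact scale_one _ _
      rw [h1]
      exact hz.1

/-- The closure of `X(K)` in a finite product of the `X(L v)` contains a neighbourhood of each of
its smooth points. -/
theorem adherent_open [∀ v, CompleteSpace (L v)] [Finite V] [Nonempty V]
    (hσ : DenseRange fun (x : K) (v : V) => σ v x)
    {F : MvPolynomial (Idx a) K} (hF : IsMultiQuadratic F) {x : ∀ v, Option (Idx a) → L v}
    (hx : ∀ v, Proper (x v)) (hxF : x ∈ Adherent σ F)
    (hs : ∀ v, x v none ≠ 0 ∨
      ∃ l, eval (fun j => x v (some j)) (pderiv l (map (σ v) F)) ≠ 0) :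
    ∃ U ∈ 𝓝 x, ∀ z ∈ U, (∀ v, z v ∈ cover (map (σ v) F)) → z ∈ Adherent σ F := by
  classical
  obtain ⟨U, hU, h⟩ := Lim_open σ hσ hF.degreeOf_le ((adherent_iff σ hσ hF hx).1 hxF) hs
  refine ⟨U ∩ {z | ∀ v, Proper (z v)}, inter_mem hU ((isOpen_proper_pi a).mem_nhds hx), ?_⟩
  rintro z ⟨hzU, hzP⟩ hz
  exact (adherent_iff σ hσ hF hzP).2 (h z hzU hz)

/-- The closure of `X(K)` in a product of the `X(L v)` is stable under moves along smooth
conics. -/
theorem adherent_conic [∀ v, CompleteSpace (L v)] [DecidableEq V] [Nonempty V]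
    (hσ : DenseRange fun (x : K) (v : V) => σ v x)
    {F : MvPolynomial (Idx a) K} (hF : IsMultiQuadratic F) {x : ∀ v, Option (Idx a) → L v}
    (hx : ∀ v, Proper (x v)) (hxF : x ∈ Adherent σ F) (v : V) (l : Idx a)
    (hd : disc (map (σ v) F) l (x v) ≠ 0) {z : Option (Idx a) → L v}
    (hz : z ∈ cover (map (σ v) F)) (hzP : Proper z) (hzl : ∀ j, j ≠ l → z (some j) = x v (some j)) :
    Function.update x v z ∈ Adherent σ F := by
  classical
  have hxL := (adherent_iff σ hσ hF hx).1 hxF
  have hzP' : ∀ v', Proper (Function.update x v z v') := by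
    intro v'
    by_cases h : v' = v
    · subst h
      rw [Function.update_self]
      exact hzP
    · rw [Function.update_of_ne h]
      exact hx v'
  rw [adherent_iff σ hσ hF hzP']
  have h1 : z = shift l (x v) (z none - x v none) (z (some l) - x v (some l)) := by
    funext j
    match j with
    | none =>
      rw [shift_none]
      ring
    | some j =>
      show _ = if j = l then x v (some j) + (z (some l) - x v (some l)) else x v (some j)
      by_cases h : j = l
      · subst h
        rw [if_pos rfl]
        ring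
      · rw [if_neg h, hzl j h]
  rw [h1]
  refine step σ hσ (hF.degreeOf_le l) hxL v _ _ (Lim_subset σ hxL v) ?_ (Or.inl hd)
  rw [← h1]
  exact hz

end Pool.Agent.TH178.WA
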