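import Pool.Agent.TH178.WA.Step

/-! Chains of moves along conics connect all local points near a smooth point. -/

set_option autoImplicit false

namespace Pool.Agent.TH178.WA

open MvPolynomial Pool.Agent.TH178.MZ Filter Topology

variable {F : Type} {τ : Type} [DecidableEq τ]

/-- A move along a conic of the double cover. -/
inductive Move [Field F] (g : MvPolynomial τ F) : (Option τ → F) → (Option τ → F) → Prop
  | mk (i : τ) (y : Option τ → F) (w s : F) (hy : y ∈ cover g) (h : shift i y w s ∈ cover g)
    (hl : Legal g i y w s) : Move g y (shift i y w s)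

/-- Reachability by chains of moves. -/
def Reach [Field F] (g : MvPolynomial τ F) : (Option τ → F) → (Option τ → F) → Prop :=
  Relation.ReflTransGen (Move g)

theorem exists_slope [Field F] [CharZero F] (a : F) : ∃ l : F, l ≠ 0 ∧ l ^ 2 - a ≠ 0 := by
  by_cases h : (1 : F) ^ 2 - a = 0
  · refine ⟨2, two_ne_zero, fun h2 => ?_⟩
    have h3 : (3 : F) = 0 := by linear_combination h2 - h
    exact three_ne_zero h3
  · exact ⟨1, one_ne_zero, h⟩

section Near

variable [NontriviallyNormedField F] [CharZero F] [CompleteSpace F] [Fintype τ]

/-- The point with the coordinates of `R` for the indices in `G` and those of `A` otherwise. -/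
noncomputable def mix (q : F → F) (g : MvPolynomial τ F) (G : Finset τ)
    (z : (Option τ → F) × (Option τ → F)) : Option τ → F := fun l =>
  match l with
  | none => q (eval (fun j => if j ∈ G then z.2 (some j) else z.1 (some j)) g)
  | some j => if j ∈ G then z.2 (some j) else z.1 (some j)

theorem near_nonzero {g : MvPolynomial τ F} (hg : ∀ i, g.degreeOf i ≤ 2) {p : Option τ → F}
    (hp : p ∈ cover g) (hw : p none ≠ 0) :
    ∃ N ∈ 𝓝 p, ∀ A ∈ N, ∀ R ∈ N, A ∈ cover g → R ∈ cover g → Reach g A R := by
  classical
  obtain ⟨q, hq1, hq2, hq3⟩ := exists_sqrt hw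
  have hpg : eval (fun j => p (some j)) g = p none ^ 2 := hp.symm
  -- the coordinates are continuous
  have ht : ∀ G : Finset τ, Tendsto (fun z : (Option τ → F) × (Option τ → F) =>
      eval (fun j => if j ∈ G then z.2 (some j) else z.1 (some j)) g) (𝓝 (p, p))
      (𝓝 (p none ^ 2)) := by
    intro G
    have h1 : Continuous fun z : (Option τ → F) × (Option τ → F) =>
        eval (fun j => if j ∈ G then z.2 (some j) else z.1 (some j)) g := by
      refine (MvPolynomial.continuous_eval g).comp (continuous_pi fun j => ?_)
      by_cases h : j ∈ G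
      · simp only [h, if_true]
        exact (continuous_apply (some j)).comp continuous_snd
      · simp only [h, if_false]
        exact (continuous_apply (some j)).comp continuous_fst
    have h2 := h1.tendsto (p, p)
    have h3 : eval (fun j => if j ∈ G then (p, p).2 (some j) else (p, p).1 (some j)) g =
        p none ^ 2 := by
      rw [← hpg]
      congr 1
      congr 1
      funext j
      split_ifs <;> rfl
    rw [h3] at h2
    exact h2
  have hqt : ∀ G : Finset τ, Tendsto (fun z : (Option τ → F) × (Option τ → F) =>
      q (eval (fun j => if j ∈ G then z.2 (some j) else z.1 (some j)) g)) (𝓝 (p, p))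
      (𝓝 (p none)) := by
    intro G
    have h1 := hq1.tendsto.comp (ht G)
    rw [hq2] at h1
    exact h1
  have hmix : ∀ G : Finset τ, Tendsto (fun z => mix q g G z) (𝓝 (p, p)) (𝓝 p) := by
    intro G
    rw [tendsto_pi_nhds]
    intro l
    match l with
    | none => exact hqt G
    | some j =>
      by_cases h : j ∈ G
      · have h1 : (fun z : (Option τ → F) × (Option τ → F) => mix q g G z (some j)) =
            fun z => z.2 (some j) := by
          funext z
          show (if j ∈ G then z.2 (some j) else z.1 (some j)) = _
          rw [if_pos h]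
        rw [h1]
        exact ((continuous_apply (some j)).comp continuous_snd).tendsto (p, p)
      · have h1 : (fun z : (Option τ → F) × (Option τ → F) => mix q g G z (some j)) =
            fun z => z.1 (some j) := by
          funext z
          show (if j ∈ G then z.2 (some j) else z.1 (some j)) = _
          rw [if_neg h]
        rw [h1]
        exact ((continuous_apply (some j)).comp continuous_fst).tendsto (p, p)
  have e1 : ∀ᶠ z in 𝓝 (p, p), ∀ G : Finset τ, mix q g G z ∈ cover g := by
    rw [eventually_all]
    intro G
    filter_upwards [(ht G).eventually hq3] with z hz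
    exact hz
  have e2 : ∀ᶠ z in 𝓝 (p, p), ∀ G : Finset τ, mix q g G z none ≠ 0 := by
    rw [eventually_all]
    intro G
    exact (hqt G).eventually_ne hw
  have e3 : ∀ᶠ z in 𝓝 (p, p), ∀ G : Finset τ, ∀ j : τ,
      2 * mix q g G z none * mix q g (insert j G) z none +
        (bb g j (mix q g G z) * (z.2 (some j) - z.1 (some j)) +
          2 * mix q g G z none ^ 2) ≠ 0 := by
    rw [eventually_all]
    intro G
    rw [eventually_all]
    intro j
    have h1 : Tendsto (fun z : (Option τ → F) × (Option τ → F) => z.2 (some j) - z.1 (some j))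
        (𝓝 (p, p)) (𝓝 0) := by
      have h2 := (((continuous_apply (some j)).comp continuous_snd).sub
        ((continuous_apply (some j)).comp continuous_fst) :
        Continuous fun z : (Option τ → F) × (Option τ → F) =>
          z.2 (some j) - z.1 (some j)).tendsto (p, p)
      have h3 : (p, p).2 (some j) - (p, p).1 (some j) = 0 := sub_self _
      rw [← h3]
      exact h2
    have h2 := (((tendsto_const_nhds (x := (2 : F))).mul (hqt G)).mul (hqt (insert j G))).add
      (((((continuous_bb g j).tendsto p).comp (hmix G)).mul h1).add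
        ((tendsto_const_nhds (x := (2 : F))).mul ((hqt G).pow 2)))
    refine h2.eventually_ne ?_
    have h3 : (2 : F) * p none * p none + (bb g j p * 0 + 2 * p none ^ 2) = 4 * p none ^ 2 := by
      ring
    rw [h3]
    have h4 : (4 : F) ≠ 0 := by norm_num
    exact mul_ne_zero h4 (pow_ne_zero 2 hw)
  have e4 : ∀ᶠ z in 𝓝 (p, p), z.1 none + mix q g ∅ z none ≠ 0 := by
    have h1 := (((continuous_apply none).comp continuous_fst :
      Continuous fun z : (Option τ → F) × (Option τ → F) => z.1 none).tendsto (p, p)).add (hqt ∅)
    refine h1.eventually_ne ?_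
    show p none + p none ≠ 0
    rw [← two_mul]
    exact mul_ne_zero two_ne_zero hw
  have e5 : ∀ᶠ z in 𝓝 (p, p), z.2 none + mix q g Finset.univ z none ≠ 0 := by
    have h1 := (((continuous_apply none).comp continuous_snd :
      Continuous fun z : (Option τ → F) × (Option τ → F) => z.2 none).tendsto (p, p)).add
        (hqt Finset.univ)
    refine h1.eventually_ne ?_
    show p none + p none ≠ 0
    rw [← two_mul]
    exact mul_ne_zero two_ne_zero hw
  have e := e1.and (e2.and (e3.and (e4.and e5)))
  rw [nhds_prod_eq, eventually_prod_self_iff'] at e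
  obtain ⟨N, hN, h⟩ := e
  refine ⟨N, hN, fun A hA R hR hAc hRc => ?_⟩
  obtain ⟨k1, k2, k3, k4, k5⟩ := h A hA R hR
  have hchain : ∀ G : Finset τ, Reach g (mix q g ∅ (A, R)) (mix q g G (A, R)) := by
    intro G
    induction G using Finset.induction_on with
    | empty => exact Relation.ReflTransGen.refl
    | insert j G hj ih =>
      refine ih.tail ?_
      obtain ⟨w, hwdef⟩ : ∃ w, w = mix q g (insert j G) (A, R) none - mix q g G (A, R) none :=
        ⟨_, rfl⟩
      have hsh : shift j (mix q g G (A, R)) w (R (some j) - A (some j)) =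
          mix q g (insert j G) (A, R) := by
        funext l
        match l with
        | none =>
          rw [shift_none, hwdef]
          ring
        | some l =>
          show (if l = j then (if l ∈ G then R (some l) else A (some l)) +
            (R (some j) - A (some j)) else (if l ∈ G then R (some l) else A (some l))) =
            if l ∈ insert j G then R (some l) else A (some l)
          by_cases hl : l = j
          · subst hl
            rw [if_pos rfl, if_neg hj, if_pos (Finset.mem_insert_self _ _)]
            ring
          · rw [if_neg hl]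
            by_cases hlG : l ∈ G
            · rw [if_pos hlG, if_pos (Finset.mem_insert_of_mem hlG)]
            · rw [if_neg hlG, if_neg]
              rw [Finset.mem_insert]
              push Not
              exact ⟨hl, hlG⟩
      rw [← hsh]
      have hm : shift j (mix q g G (A, R)) w (R (some j) - A (some j)) ∈ cover g := by
        rw [hsh]
        exact k1 _
      refine Move.mk j _ w _ (k1 G) hm ?_
      by_cases hd : disc g j (mix q g G (A, R)) = 0
      · right
        refine ⟨k2 G, ?_, ?_⟩
        · rw [hwdef, add_sub_cancel]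
          exact k2 _
        · have h1 := (shift_mem (hg j) (k1 G) w _).1 hm
          have h2 : mix q g G (A, R) none + w = mix q g (insert j G) (A, R) none := by
            rw [hwdef]; ring
          rw [disc] at hd
          have h3 := k3 G j
          have h4 : (2 * mix q g G (A, R) none * mix q g (insert j G) (A, R) none +
              (bb g j (mix q g G (A, R)) * (R (some j) - A (some j)) +
                2 * mix q g G (A, R) none ^ 2)) *
              (2 * mix q g G (A, R) none * w - bb g j (mix q g G (A, R)) *
                (R (some j) - A (some j))) = 0 := by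
            rw [← h2]
            linear_combination (4 * mix q g G (A, R) none ^ 2) * h1 -
              (R (some j) - A (some j)) ^ 2 * hd
          exact sub_eq_zero.1 ((mul_eq_zero.1 h4).resolve_left h3)
      · left
        exact hd
  have hA' : mix q g ∅ (A, R) = A := by
    funext l
    match l with
    | none =>
      have h1 : mix q g ∅ (A, R) none ^ 2 = eval (fun j => A (some j)) g := k1 ∅
      have h2 : A none ^ 2 = eval (fun j => A (some j)) g := hAc
      have h3 : (A none + mix q g ∅ (A, R) none) * (mix q g ∅ (A, R) none - A none) = 0 := by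
        linear_combination h1 - h2
      exact sub_eq_zero.1 ((mul_eq_zero.1 h3).resolve_left k4)
    | some j => rfl
  have hR' : mix q g Finset.univ (A, R) = R := by
    have ht : (fun j => if j ∈ (Finset.univ : Finset τ) then R (some j) else A (some j)) =
        fun j => R (some j) := by
      funext j
      rw [if_pos (Finset.mem_univ j)]
    funext l
    match l with
    | none =>
      have h1 : mix q g Finset.univ (A, R) none ^ 2 =
          eval (fun j => if j ∈ (Finset.univ : Finset τ) then R (some j) else A (some j)) g :=
        k1 Finset.univ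
      rw [ht] at h1
      have h2 : R none ^ 2 = eval (fun j => R (some j)) g := hRc
      have h3 : (R none + mix q g Finset.univ (A, R) none) *
          (mix q g Finset.univ (A, R) none - R none) = 0 := by
        linear_combination h1 - h2
      exact sub_eq_zero.1 ((mul_eq_zero.1 h3).resolve_left k5)
    | some j => exact if_pos (Finset.mem_univ j)
  have := hchain Finset.univ
  rwa [hA', hR'] at this

theorem near_zero {g : MvPolynomial τ F} (hg : ∀ i, g.degreeOf i ≤ 2) {p : Option τ → F}
    (hp : p ∈ cover g) (hw : p none = 0) {k : τ} (hk : bb g k p ≠ 0) :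
    ∃ N ∈ 𝓝 p, ∀ A ∈ N, ∀ R ∈ N, A ∈ cover g → R ∈ cover g → Reach g A R := by
  obtain ⟨l, hl0, hl⟩ := exists_slope (aa g k p)
  have hlegal : l ^ 2 - aa g k p * 1 ^ 2 ≠ 0 := by
    rw [one_pow, mul_one]
    exact hl
  have hH : chord g k p l 1 ∈ cover g := chord_mem (hg k) hp hlegal
  have hHn : chord g k p l 1 none ≠ 0 := by
    show p none + _ ≠ 0
    rw [hw, zero_add, mul_zero, zero_mul, sub_zero, mul_one]
    exact mul_ne_zero hl0 (div_ne_zero hk hlegal)
  obtain ⟨N, hN, hreach⟩ := near_nonzero hg hH hHn
  have hcont : ContinuousAt (fun A : Option τ → F => chord g k A l 1) p :=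
    continuousAt_chord g k continuousAt_id continuousAt_const continuousAt_const hlegal
  have e1 : ∀ᶠ A in 𝓝 p, chord g k A l 1 ∈ N := hcont hN
  have e2 : ∀ᶠ A in 𝓝 p, disc g k A ≠ 0 := by
    refine (continuous_disc g k).continuousAt.eventually_ne ?_
    rw [disc, hw]
    have : bb g k p ^ 2 - 4 * aa g k p * 0 ^ 2 = bb g k p ^ 2 := by ring
    rw [this]
    exact pow_ne_zero 2 hk
  have e3 : ∀ᶠ A in 𝓝 p, l ^ 2 - aa g k A * 1 ^ 2 ≠ 0 := by
    refine (continuous_const.sub ((continuous_aa g k).mul
      continuous_const)).continuousAt.eventually_ne hlegal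
  have key : ∀ A, chord g k A l 1 ∈ N → disc g k A ≠ 0 → l ^ 2 - aa g k A * 1 ^ 2 ≠ 0 →
      A ∈ cover g → Move g A (chord g k A l 1) ∧ Move g (chord g k A l 1) A := by
    intro A _ h2 h3 hA
    have hc := chord_mem (hg k) hA h3
    constructor
    · exact Move.mk k A _ _ hA hc (Or.inl h2)
    · obtain ⟨w, hwd⟩ : ∃ w, w = l * ((bb g k A * 1 - 2 * A none * l) /
        (l ^ 2 - aa g k A * 1 ^ 2)) := ⟨_, rfl⟩
      obtain ⟨s, hsd⟩ : ∃ s, s = 1 * ((bb g k A * 1 - 2 * A none * l) /
        (l ^ 2 - aa g k A * 1 ^ 2)) := ⟨_, rfl⟩
      have h4 : chord g k A l 1 = shift k A w s := by rw [chord, hwd, hsd]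
      rw [h4] at hc ⊢
      have h5 := shift_neg k A w s
      have h6 : Move g (shift k A w s) (shift k (shift k A w s) (-w) (-s)) := by
        refine Move.mk k _ _ _ hc ?_ (Or.inl ?_)
        · rw [h5]; exact hA
        · rw [disc_shift (hg k) hA hc]; exact h2
      rwa [h5] at h6
  refine ⟨{A | chord g k A l 1 ∈ N ∧ disc g k A ≠ 0 ∧ l ^ 2 - aa g k A * 1 ^ 2 ≠ 0},
    e1.and (e2.and e3), ?_⟩
  rintro A ⟨hA1, hA2, hA3⟩ R ⟨hR1, hR2, hR3⟩ hAc hRc
  have hA := key A hA1 hA2 hA3 hAc
  have hR := key R hR1 hR2 hR3 hRc
  have hmid := hreach _ hA1 _ hR1 (chord_mem (hg k) hAc hA3) (chord_mem (hg k) hRc hR3)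
  exact (Relation.ReflTransGen.head hA.1 hmid).tail hR.2

/-- All local points near a smooth point can be reached from each other. -/
theorem near_smooth {g : MvPolynomial τ F} (hg : ∀ i, g.degreeOf i ≤ 2) {p : Option τ → F}
    (hp : p ∈ cover g)
    (hs : p none ≠ 0 ∨ ∃ k, eval (fun j => p (some j)) (pderiv k g) ≠ 0) :
    ∃ N ∈ 𝓝 p, ∀ A ∈ N, ∀ R ∈ N, A ∈ cover g → R ∈ cover g → Reach g A R := by
  by_cases hw : p none = 0
  · rcases hs with h | ⟨k, hk⟩
    · exact absurd hw h
    · exact near_zero hg hp hw hk
  · exact near_nonzero hg hp hw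

end Near

variable {K : Type} [Field K] [CharZero K] {V : Type} {L : V → Type}
  [∀ v, NontriviallyNormedField (L v)] [∀ v, CompleteSpace (L v)] (σ : ∀ v, K →+* L v)
  [Fintype τ]

theorem Lim_reach_one [DecidableEq V] (hσ : DenseRange fun (x : K) (v : V) => σ v x)
    {f : MvPolynomial τ K} (hf : ∀ i, f.degreeOf i ≤ 2) {P : ∀ v, Option τ → L v}
    (hP : P ∈ Lim σ f) (v : V) {B : Option τ → L v} (hB : Reach (map (σ v) f) (P v) B) :
    Function.update P v B ∈ Lim σ f := by
  induction hB with
  | refl =>
    rw [Function.update_eq_self]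
    exact hP
  | tail _ hmove ih =>
    obtain ⟨i, y, w, s, hy, h, hl⟩ := hmove
    have h1 := step σ hσ (hf i) ih v w s (by rw [Function.update_self]; exact hy)
      (by rw [Function.update_self]; exact h) (by rw [Function.update_self]; exact hl)
    rw [Function.update_self, Function.update_idem] at h1
    exact h1

/-- The closure of the `K`-points is a union of products of classes of the local points. -/
theorem Lim_reach (hσ : DenseRange fun (x : K) (v : V) => σ v x)
    {f : MvPolynomial τ K} (hf : ∀ i, f.degreeOf i ≤ 2) {P R : ∀ v, Option τ → L v}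
    (hP : P ∈ Lim σ f) (hR : ∀ v, Reach (map (σ v) f) (P v) (R v)) : R ∈ Lim σ f := by
  classical
  have h1 : ∀ G : Finset V, (fun v => if v ∈ G then R v else P v) ∈ Lim σ f := by
    intro G
    induction G using Finset.induction_on with
    | empty => simpa using hP
    | insert v G hv ih =>
      have h2 := Lim_reach_one σ hσ hf ih v (B := R v) (by rw [if_neg hv]; exact hR v)
      have h3 : Function.update (fun v => if v ∈ G then R v else P v) v (R v) =
          fun v' => if v' ∈ insert v G then R v' else P v' := by
        funext v'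
        by_cases h : v' = v
        · subst h
          rw [Function.update_self, if_pos (Finset.mem_insert_self _ _)]
        · rw [Function.update_of_ne h]
          by_cases h' : v' ∈ G
          · rw [if_pos h', if_pos (Finset.mem_insert_of_mem h')]
          · rw [if_neg h', if_neg]
            rw [Finset.mem_insert]
            push Not
            exact ⟨h, h'⟩
      rw [h3] at h2
      exact h2
  have h2 : Tendsto (fun G : Finset V => fun v => if v ∈ G then R v else P v) atTop (𝓝 R) := by
    rw [tendsto_pi_nhds]
    intro v
    refine tendsto_const_nhds.congr' ?_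
    filter_upwards [eventually_ge_atTop {v}] with G hG
    rw [if_pos (hG (Finset.mem_singleton_self v))]
  exact isClosed_closure.mem_of_tendsto h2 (Eventually.of_forall h1)

omit [DecidableEq τ] [Fintype τ] in
theorem isClosed_cover {F : Type} [NontriviallyNormedField F] (g : MvPolynomial τ F) :
    IsClosed (cover g) :=
  isClosed_eq ((continuous_apply none).pow 2) (continuous_evalSome g)

omit [CharZero K] [∀ v, CompleteSpace (L v)] [DecidableEq τ] [Fintype τ] in
theorem Lim_subset {f : MvPolynomial τ K} {P : ∀ v, Option τ → L v} (hP : P ∈ Lim σ f) (v : V) :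
    P v ∈ cover (map (σ v) f) := by
  have h1 : IsClosed {Q : ∀ v, Option τ → L v | Q v ∈ cover (map (σ v) f)} :=
    (isClosed_cover _).preimage (continuous_apply v)
  refine closure_minimal ?_ h1 hP
  rintro _ ⟨y, hy, rfl⟩
  exact map_mem_cover (σ v) hy

/-- The closure of the `K`-points in a finite product of completions contains a neighbourhood of
each of its smooth points. -/
theorem Lim_open [Finite V] (hσ : DenseRange fun (x : K) (v : V) => σ v x)
    {f : MvPolynomial τ K} (hf : ∀ i, f.degreeOf i ≤ 2) {P : ∀ v, Option τ → L v}
    (hP : P ∈ Lim σ f)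
    (hs : ∀ v, P v none ≠ 0 ∨ ∃ k, eval (fun j => P v (some j)) (pderiv k (map (σ v) f)) ≠ 0) :
    ∃ U ∈ 𝓝 P, ∀ R ∈ U, (∀ v, R v ∈ cover (map (σ v) f)) → R ∈ Lim σ f := by
  classical
  have := Fintype.ofFinite V
  have h1 : ∀ v, ∃ N ∈ 𝓝 (P v), ∀ A ∈ N, ∀ R ∈ N, A ∈ cover (map (σ v) f) →
      R ∈ cover (map (σ v) f) → Reach (map (σ v) f) A R := by
    intro v
    have := charZero_L σ v
    exact near_smooth (fun i => degreeOf_map_le (σ v) f i (hf i)) (Lim_subset σ hP v) (hs v)
  choose N hN hreach using h1
  refine ⟨Set.pi Set.univ N, set_pi_mem_nhds Set.finite_univ fun v _ => hN v, ?_⟩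
  intro R hR hRc
  refine Lim_reach σ hσ hf hP fun v => ?_
  exact hreach v _ (mem_of_mem_nhds (hN v)) _ (hR v (Set.mem_univ v)) (Lim_subset σ hP v) (hRc v)

end Pool.Agent.TH178.WA
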