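import Pool.Agent.TH178.WA.Reach
import Pool.Agent.TH178.MZ.Multi
import Pool.Agent.TH729.SQ.Values
import Pool.Agent.TH729.SQ.Tri

/-! The closure in real space of the rational points of a double cover `w² = f(t)` is
semialgebraic. -/

set_option autoImplicit false

namespace Pool.Agent.TH178.WA

open MvPolynomial Filter Topology Set
open Pool.Agent.H581R2 Pool.Agent.TH729.SQ

variable {K : Type} [Field K] (σ : K →+* ℝ)

/-- The zero set of a polynomial with algebraic coefficients. -/
theorem sa_zero {ι : Type} [Finite ι] (hσ : ∀ r, IsAlgebraic ℚ (σ r)) (g : MvPolynomial ι K) :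
    SA {x : ι → ℝ | eval x (map σ g) = 0} := by
  classical
  have := Fintype.ofFinite ι
  let κ : Type := {d // d ∈ g.support}
  let S : Set (κ ⊕ ι → ℝ) := {w | ∑ d : κ, w (Sum.inl d) * ∏ i, w (Sum.inr i) ^ (d : ι →₀ ℕ) i = 0}
  have hprod : ∀ (d : ι →₀ ℕ) (s : Finset ι),
      PF (fun w : κ ⊕ ι → ℝ => ∏ i ∈ s, w (Sum.inr i) ^ d i) := by
    intro d s
    induction s using Finset.induction_on with
    | empty => simpa using PF.one
    | insert i s hi ih =>
      have h : (fun w : κ ⊕ ι → ℝ => ∏ i ∈ insert i s, w (Sum.inr i) ^ d i) =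
          fun w => w (Sum.inr i) ^ d i * ∏ i ∈ s, w (Sum.inr i) ^ d i := by
        funext w
        rw [Finset.prod_insert hi]
      rw [h]
      exact ((PF.coord _).pow _).mul ih
  have hS : SA S := by
    refine SAP.eq_zero ?_
    exact PF.sum Finset.univ fun d _ => (PF.coord _).mul (hprod d Finset.univ)
  have h1 := SA.of_param hS (a := fun d : κ => σ (g.coeff d)) fun d => hσ _
  refine SAP.congr h1 fun x => ?_
  show eval x (map σ g) = 0 ↔ ∑ d : κ, σ (g.coeff d) * ∏ i, x i ^ (d : ι →₀ ℕ) i = 0
  rw [eval_map, eval₂_eq', ← Finset.sum_coe_sort g.support fun d => σ (g.coeff d) * ∏ i, x i ^ d i]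

theorem denseRange_real [CharZero K] (σ : K →+* ℝ) : DenseRange σ := by
  refine Rat.denseRange_cast.mono ?_
  rintro _ ⟨q, rfl⟩
  exact ⟨(q : K), map_ratCast σ q⟩

/-- The real points given by the `K`-points in `S`. -/
def rpt {ι : Type} (S : Set (ι → K)) : Set (ι → ℝ) := (fun (r : ι → K) l => σ (r l)) '' S

variable {τ : Type}

theorem mem_closure_iff_Lim (f : MvPolynomial τ K) (x : Option τ → ℝ) :
    x ∈ closure (rpt σ (MZ.cover f)) ↔
      (fun _ : Unit => x) ∈ Lim (L := fun _ : Unit => ℝ) (fun _ => σ) f := by
  constructor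
  · intro h
    have hc : Continuous fun (x : Option τ → ℝ) (_ : Unit) => x :=
      continuous_pi fun _ => continuous_id
    refine map_mem_closure hc h ?_
    rintro _ ⟨r, hr, rfl⟩
    exact ⟨r, hr, rfl⟩
  · intro h
    have hc : Continuous fun (P : Unit → Option τ → ℝ) => P () := continuous_apply ()
    refine map_mem_closure hc h ?_
    rintro _ ⟨r, hr, rfl⟩
    exact ⟨r, hr, rfl⟩

theorem closure_open [CharZero K] [Fintype τ] [DecidableEq τ] {f : MvPolynomial τ K}
    (hf : ∀ i, f.degreeOf i ≤ 2) {x : Option τ → ℝ} (hx : x ∈ closure (rpt σ (MZ.cover f)))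
    (hs : x none ≠ 0 ∨ ∃ k, eval (fun j => x (some j)) (pderiv k (map σ f)) ≠ 0) :
    ∃ U ∈ 𝓝 x, ∀ z ∈ U, z ∈ MZ.cover (map σ f) → z ∈ closure (rpt σ (MZ.cover f)) := by
  have hσ : DenseRange fun (x : K) (_ : Unit) => σ x := DenseRange.comp (f := σ)
    (g := fun (x : ℝ) (_ : Unit) => x)
    (Function.Surjective.denseRange fun P => ⟨P (), rfl⟩) (denseRange_real σ)
    (continuous_pi fun _ => continuous_id)
  obtain ⟨U, hU, h⟩ := Lim_open (L := fun _ : Unit => ℝ) (fun _ => σ) hσ hf
    ((mem_closure_iff_Lim σ f x).1 hx) (fun _ => hs)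
  have hc : Continuous fun (x : Option τ → ℝ) (_ : Unit) => x :=
    continuous_pi fun _ => continuous_id
  refine ⟨_, hc.continuousAt hU, fun z hz hzc => ?_⟩
  rw [mem_closure_iff_Lim]
  exact h _ hz fun _ => hzc

/-- The closure of the set of the `K`-points of `w² = f(t)` is semialgebraic over `ℚ`, if the closure
of the set of the singular `K`-points is. -/
theorem closure_SA [CharZero K] [Fintype τ] [DecidableEq τ] (halg : ∀ r, IsAlgebraic ℚ (σ r))
    {f : MvPolynomial τ K} (hf : ∀ i, f.degreeOf i ≤ 2)
    (hsing : SA (closure (rpt σ (MZ.singular f)))) : SA (closure (rpt σ (MZ.cover f))) := by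
  classical
  let Vs : Set (Option τ → ℝ) := {x | x ∈ MZ.cover (map σ f) ∧
    (x none ≠ 0 ∨ ∃ k, eval (fun j => x (some j)) (pderiv k (map σ f)) ≠ 0)}
  have hVs : SA Vs := by
    refine SAP.and ?_ (SAP.or (SAP.not (SAP.eq_zero (PF.coord none))) ?_)
    · refine SAP.congr (sa_zero σ halg (X none ^ 2 - rename some f : MvPolynomial (Option τ) K))
        fun x => ?_
      show x none ^ 2 = eval (fun j => x (some j)) (map σ f) ↔
        eval x (map σ (X none ^ 2 - rename some f)) = 0
      rw [map_sub, map_pow, map_X, map_rename, map_sub, map_pow, eval_X, eval_rename, sub_eq_zero]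
      rfl
    · refine SAP.congr (SAP.not (SAP.forall_fin (α := τ)
        (p := fun k x => eval (fun j => x (some j)) (pderiv k (map σ f)) = 0) fun k => ?_))
        fun x => ?_
      · refine SAP.congr (sa_zero σ halg (rename some (pderiv k f) : MvPolynomial (Option τ) K))
          fun x => ?_
        rw [map_rename, eval_rename, pderiv_map]
        rfl
      · push Not
        rfl
  set D := closure (rpt σ (MZ.cover f)) with hD
  have hDc : D ⊆ MZ.cover (map σ f) := by
    refine closure_minimal ?_ (isClosed_cover _)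
    rintro _ ⟨r, hr, rfl⟩
    exact map_mem_cover σ hr
  have hW : SA (D ∩ Vs) := by
    refine sa_of_lc _ Vs (D ∩ Vs) hVs inter_subset_right ?_
    refine LC.of_clopen (O := interior {x | x ∈ Vs → x ∈ D}) (C := D) isOpen_interior
      isClosed_closure ?_ ?_
    · intro x hx
      constructor
      · rintro ⟨hxD, -⟩
        obtain ⟨U, hU, h⟩ := closure_open σ hf hxD hx.2
        rw [mem_interior_iff_mem_nhds]
        filter_upwards [hU] with z hz hzV
        exact h z hz hzV.1
      · intro h
        exact ⟨interior_subset h hx, hx⟩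
    · intro x hx
      exact ⟨fun h => h.1, fun h => ⟨h, hx⟩⟩
  have hDeq : D = closure (D ∩ Vs) ∪ closure (rpt σ (MZ.singular f)) := by
    apply Subset.antisymm
    · rw [← closure_union]
      apply closure_mono
      rintro _ ⟨r, hr, rfl⟩
      by_cases hs : r ∈ MZ.singular f
      · exact Or.inr ⟨r, hs, rfl⟩
      · left
        refine ⟨subset_closure ⟨r, hr, rfl⟩, map_mem_cover σ hr, ?_⟩
        by_contra hcon
        push Not at hcon
        apply hs
        refine ⟨hr, σ.injective (by rw [map_zero]; exact hcon.1), fun l => ?_⟩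
        apply σ.injective
        have h1 := hcon.2 l
        rw [pderiv_map, eval_map_comp] at h1
        rw [h1, map_zero]
    · refine union_subset (closure_minimal inter_subset_left isClosed_closure) (closure_mono ?_)
      rintro _ ⟨r, hr, rfl⟩
      exact ⟨r, hr.1, rfl⟩
  rw [hDeq]
  exact SA.union (SA.closure hW) hsing

theorem sa_finite [CharZero K] {ι : Type} [Finite ι] (halg : ∀ r, IsAlgebraic ℚ (σ r))
    {S : Set (ι → K)} (hS : S.Finite) : SA (closure (rpt σ S)) := by
  classical
  show SA (closure ((fun (r : ι → K) l => σ (r l)) '' S))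
  rw [(hS.image _).isClosed.closure_eq]
  have h : SAP (fun x : ι → ℝ => ∃ r ∈ hS.toFinset, x ∈ ({fun i => σ (r i)} : Set (ι → ℝ))) :=
    SAP.exists_mem _ fun r _ => SA.point fun k => halg _
  refine h.congr fun x => ?_
  constructor
  · rintro ⟨r, hr, rfl⟩
    exact ⟨r, hS.mem_toFinset.2 hr, rfl⟩
  · rintro ⟨r, hr, hx⟩
    exact ⟨r, hS.mem_toFinset.1 hr, hx.symm⟩

/-- The points of `w² = f(t)`, with the coordinate `w` first. -/
def coverFin {n : ℕ} (f : MvPolynomial (Fin n) K) : Set (Fin (n + 1) → K) :=
  {r | r 0 ^ 2 = eval (fun i => r (Fin.succ i)) f}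

/-- The zeros of `f` at which all first partial derivatives vanish. -/
def singFin {n : ℕ} (f : MvPolynomial (Fin n) K) : Set (Fin n → K) :=
  {t | eval t f = 0 ∧ ∀ i, eval t (pderiv i f) = 0}

theorem coverFin_SA [CharZero K] {n : ℕ} (halg : ∀ r, IsAlgebraic ℚ (σ r))
    {f : MvPolynomial (Fin n) K} (hf : ∀ i, f.degreeOf i ≤ 2)
    (hsing : SA (closure (rpt σ (singFin f)))) : SA (closure (rpt σ (coverFin f))) := by
  classical
  -- the singular points
  have h0 : SA (closure (rpt σ (MZ.singular f))) := by
    have h1 : SAP (fun x : Option (Fin n) → ℝ => x none = 0 ∧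
        (fun i => x (some i)) ∈ closure (rpt σ (singFin f))) :=
      SAP.and (SAP.eq_zero (PF.coord none))
        (SAP.preimage (p := fun v => v ∈ closure (rpt σ (singFin f))) hsing
          (fun i => PF.coord (some i)))
    refine SAP.congr h1 fun x => ?_
    constructor
    · intro hx
      have hc1 : Continuous fun x : Option (Fin n) → ℝ => x none := continuous_apply none
      have hc2 : Continuous fun (x : Option (Fin n) → ℝ) (i : Fin n) => x (some i) :=
        continuous_pi fun i => continuous_apply (some i)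
      constructor
      · have h2 : IsClosed {x : Option (Fin n) → ℝ | x none = 0} := isClosed_eq hc1 continuous_const
        refine closure_minimal ?_ h2 hx
        rintro _ ⟨r, hr, rfl⟩
        show σ (r none) = 0
        rw [hr.2.1, map_zero]
      · refine map_mem_closure hc2 hx ?_
        rintro _ ⟨r, hr, rfl⟩
        refine ⟨fun i => r (some i), ⟨?_, hr.2.2⟩, rfl⟩
        have h3 : r none ^ 2 = eval (fun i => r (some i)) f := hr.1
        rw [← h3, hr.2.1]
        ring
    · rintro ⟨hx0, hx⟩
      have hc : Continuous fun (t : Fin n → ℝ) (l : Option (Fin n)) =>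
          (Option.elim l 0 t : ℝ) := by
        refine continuous_pi fun l => ?_
        match l with
        | none => exact continuous_const
        | some i => exact continuous_apply i
      have h4 := map_mem_closure hc hx (t := rpt σ (MZ.singular f)) (by
        rintro _ ⟨t, ht, rfl⟩
        refine ⟨fun l => Option.elim l 0 t, ⟨?_, rfl, ht.2⟩, ?_⟩
        · show (0 : K) ^ 2 = eval (fun i => t i) f
          rw [show eval (fun i => t i) f = 0 from ht.1]
          ring
        · funext l
          match l with
          | none => exact map_zero σ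
          | some i => rfl)
      have h5 : (fun l : Option (Fin n) => (Option.elim l 0 (fun i => x (some i)) : ℝ)) = x := by
        funext l
        match l with
        | none => exact hx0.symm
        | some i => rfl
      rwa [h5] at h4
  have h1 := closure_SA σ halg hf h0
  -- reindexing
  let e : Fin (n + 1) ≃ Option (Fin n) := finSuccEquiv n
  have h2 : SAP (fun x : Fin (n + 1) → ℝ => (fun l => x (e.symm l)) ∈
      closure (rpt σ (MZ.cover f))) :=
    SAP.preimage (p := fun v => v ∈ closure (rpt σ (MZ.cover f))) h1 (fun l => PF.coord (e.symm l))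
  refine SAP.congr h2 fun x => ?_
  have hs0 : e.symm none = 0 := finSuccEquiv_symm_none
  have hss : ∀ i : Fin n, e.symm (some i) = i.succ := fun i => finSuccEquiv_symm_some i
  constructor
  · intro hx
    have hc : Continuous fun (x : Fin (n + 1) → ℝ) (l : Option (Fin n)) => x (e.symm l) :=
      continuous_pi fun l => continuous_apply (e.symm l)
    refine map_mem_closure hc hx ?_
    rintro _ ⟨r, hr, rfl⟩
    refine ⟨fun l => r (e.symm l), ?_, rfl⟩
    show r (e.symm none) ^ 2 = eval (fun j => r (e.symm (some j))) f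
    simp only [hs0, hss]
    exact hr
  · intro hx
    have hc : Continuous fun (y : Option (Fin n) → ℝ) (i : Fin (n + 1)) => y (e i) :=
      continuous_pi fun i => continuous_apply (e i)
    have h3 := map_mem_closure hc hx (t := rpt σ (coverFin f)) (by
      rintro _ ⟨r, hr, rfl⟩
      refine ⟨fun i => r (e i), ?_, rfl⟩
      show r (e 0) ^ 2 = eval (fun i => r (e (Fin.succ i))) f
      have e0 : e 0 = none := finSuccEquiv_zero
      have es : ∀ i : Fin n, e i.succ = some i := fun i => finSuccEquiv_succ i
      simp only [e0, es]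
      exact hr)
    have h4 : (fun i => (fun l => x (e.symm l)) (e i)) = x := by
      funext i
      show x (e.symm (e i)) = x i
      rw [Equiv.symm_apply_apply]
    rwa [h4] at h3

theorem alg_of_alg (K : Type) [Field K] [CharZero K] [Algebra.IsAlgebraic ℚ K] (σ : K →+* ℝ)
    (r : K) : IsAlgebraic ℚ (σ r) := by
  have h := Algebra.IsAlgebraic.isAlgebraic (R := ℚ) r
  have hc : σ.comp (algebraMap ℚ K) = algebraMap ℚ ℝ := Subsingleton.elim _ _
  obtain ⟨p, hp, hp2⟩ := h
  refine ⟨p, hp, ?_⟩
  rw [Polynomial.aeval_def, ← hc, ← Polynomial.hom_eval₂, ← Polynomial.aeval_def, hp2,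
    map_zero]

end Pool.Agent.TH178.WA
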