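import Pool.Agent.TH178.WA.Chord

/-! The closure of the `K`-points of a double cover `w² = f(t)` in a product of completions is
preserved by moves along conics. -/

set_option autoImplicit false

namespace Pool.Agent.TH178.WA

open MvPolynomial Pool.Agent.TH178.MZ Filter Topology

section Local

variable {F : Type} [NontriviallyNormedField F] {τ : Type}

theorem continuous_evalSome (g : MvPolynomial τ F) :
    Continuous fun y : Option τ → F => eval (fun j => y (some j)) g :=
  (MvPolynomial.continuous_eval g).comp (continuous_pi fun j => continuous_apply (some j))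

theorem continuous_bb (f : MvPolynomial τ F) (i : τ) : Continuous (bb f i) :=
  continuous_evalSome (pderiv i f)

theorem continuous_aa (f : MvPolynomial τ F) (i : τ) : Continuous (aa f i) := by
  have h : aa f i = fun y => eval (fun j => y (some j)) (pderiv i (pderiv i f)) / 2 := rfl
  rw [h]
  exact (continuous_evalSome (pderiv i (pderiv i f))).div_const 2

theorem continuous_disc (f : MvPolynomial τ F) (i : τ) : Continuous (disc f i) :=
  ((continuous_bb f i).pow 2).sub
    ((continuous_const.mul (continuous_aa f i)).mul ((continuous_apply none).pow 2))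

theorem continuousAt_shift [DecidableEq τ] (i : τ) {A : Type*} [TopologicalSpace A] {z : A}
    {y : A → Option τ → F} {w s : A → F} (hy : ContinuousAt y z) (hw : ContinuousAt w z)
    (hs : ContinuousAt s z) : ContinuousAt (fun a => shift i (y a) (w a) (s a)) z := by
  rw [continuousAt_pi]
  intro l
  match l with
  | none => exact ((continuousAt_pi.1 hy none).add hw)
  | some j =>
    by_cases h : j = i
    · have h1 : (fun a => shift i (y a) (w a) (s a) (some j)) = fun a => y a (some j) + s a := by
        funext a
        show (if j = i then y a (some j) + s a else y a (some j)) = _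
        rw [if_pos h]
      rw [h1]
      exact (continuousAt_pi.1 hy (some j)).add hs
    · have h1 : (fun a => shift i (y a) (w a) (s a) (some j)) = fun a => y a (some j) := by
        funext a
        show (if j = i then y a (some j) + s a else y a (some j)) = _
        rw [if_neg h]
      rw [h1]
      exact continuousAt_pi.1 hy (some j)

theorem continuousAt_chord [DecidableEq τ] (f : MvPolynomial τ F) (i : τ) {A : Type*}
    [TopologicalSpace A] {z : A} {y : A → Option τ → F} {lam mu : A → F} (hy : ContinuousAt y z)
    (hl : ContinuousAt lam z) (hm : ContinuousAt mu z)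
    (h : lam z ^ 2 - aa f i (y z) * mu z ^ 2 ≠ 0) :
    ContinuousAt (fun a => chord f i (y a) (lam a) (mu a)) z := by
  have ha : ContinuousAt (fun a => aa f i (y a)) z := (continuous_aa f i).continuousAt.comp hy
  have hb : ContinuousAt (fun a => bb f i (y a)) z := (continuous_bb f i).continuousAt.comp hy
  have hρ : ContinuousAt (fun a => (bb f i (y a) * mu a - 2 * y a none * lam a) /
      (lam a ^ 2 - aa f i (y a) * mu a ^ 2)) z :=
    ((hb.mul hm).sub ((continuousAt_const.mul (continuousAt_pi.1 hy none)).mul hl)).div
      ((hl.pow 2).sub (ha.mul (hm.pow 2))) h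
  exact continuousAt_shift i hy (hl.mul hρ) (hm.mul hρ)

/-- A continuous square root near a nonzero square. -/
theorem exists_sqrt [CharZero F] [CompleteSpace F] {w : F} (hw : w ≠ 0) :
    ∃ g : F → F, ContinuousAt g (w ^ 2) ∧ g (w ^ 2) = w ∧ ∀ᶠ x in 𝓝 (w ^ 2), g x ^ 2 = x := by
  have h1 : HasStrictDerivAt (fun x : F => x ^ 2) (2 * w) w := by
    have := hasStrictDerivAt_pow 2 w
    simpa using this
  have h2 : (2 : F) * w ≠ 0 := mul_ne_zero two_ne_zero hw
  refine ⟨h1.localInverse (fun x : F => x ^ 2) (2 * w) w h2, ?_, ?_, ?_⟩
  · exact (h1.to_localInverse h2).hasDerivAt.continuousAt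
  · exact (h1.eventually_left_inverse h2).self_of_nhds
  · exact h1.eventually_right_inverse h2

end Local

variable {K : Type} [Field K] [CharZero K] {V : Type} {L : V → Type}
  [∀ v, NontriviallyNormedField (L v)] (σ : ∀ v, K →+* L v) {τ : Type}

/-- The image of a `K`-point in the product of the completions. -/
def diag (y : Option τ → K) : ∀ v, Option τ → L v := fun v l => σ v (y l)

/-- The closure of the set of `K`-points of the double cover in the product of the completions. -/
def Lim (f : MvPolynomial τ K) : Set (∀ v, Option τ → L v) := closure (diag σ '' cover f)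

omit [CharZero K] in
theorem subset_Lim (f : MvPolynomial τ K) {y : Option τ → K} (hy : y ∈ cover f) :
    diag σ y ∈ Lim σ f := subset_closure ⟨y, hy, rfl⟩

theorem charZero_L (σ : ∀ v, K →+* L v) (v : V) : CharZero (L v) :=
  charZero_of_injective_ringHom (σ v).injective

/-- Moves from a `K`-point along a smooth conic. -/
theorem move_smooth [Fintype τ] [DecidableEq τ] [DecidableEq V]
    (hσ : DenseRange fun (x : K) (v : V) => σ v x) {f : MvPolynomial τ K} {i : τ}
    (hf : f.degreeOf i ≤ 2) {y : Option τ → K} (hy : y ∈ cover f) (hd : disc f i y ≠ 0) (v : V)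
    (w s : L v) (hB : shift i (diag σ y v) w s ∈ cover (map (σ v) f)) :
    Function.update (diag σ y) v (shift i (diag σ y v) w s) ∈ Lim σ f := by
  have := charZero_L σ v
  have hdv : ∀ v', disc (map (σ v') f) i (diag σ y v') ≠ 0 := by
    intro v'
    show disc (map (σ v') f) i (fun l => σ v' (y l)) ≠ 0
    rw [disc_map]
    exact fun h => hd ((σ v').injective (by rw [h, map_zero]))
  have hyv : diag σ y v ∈ cover (map (σ v) f) := map_mem_cover (σ v) hy
  obtain ⟨lam, mu, hlm, hch⟩ := exists_chord (degreeOf_map_le (σ v) f i hf) hyv (hdv v) hB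
  let Φ : (∀ v', L v' × L v') → ∀ v', Option τ → L v' := fun q v' =>
    chord (map (σ v') f) i (diag σ y v') (q v').1 (q v').2
  let Λ : ∀ v', L v' × L v' := Function.update (fun v' => (σ v' (bb f i y),
    σ v' (2 * y none))) v (lam, mu)
  have hΛv : Λ v = (lam, mu) := Function.update_self v _ _
  have hΛv' : ∀ v', v' ≠ v → Λ v' = (σ v' (bb f i y), σ v' (2 * y none)) :=
    fun v' h => Function.update_of_ne h _ _
  have hlegal : ∀ v', (Λ v').1 ^ 2 - aa (map (σ v') f) i (diag σ y v') * (Λ v').2 ^ 2 ≠ 0 := by
    intro v'
    by_cases h : v' = v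
    · subst h
      rw [hΛv]
      exact hlm
    · rw [hΛv' v' h]
      intro h0
      apply hd
      apply (σ v').injective
      have h1 : aa (map (σ v') f) i (diag σ y v') = σ v' (aa f i y) := aa_map (σ v') f i y
      rw [h1] at h0
      rw [map_zero, ← h0, disc]
      simp only [map_sub, map_mul, map_pow, map_ofNat]
      ring
  have hΦ : Φ Λ = Function.update (diag σ y) v (shift i (diag σ y v) w s) := by
    funext v'
    by_cases h : v' = v
    · subst h
      rw [Function.update_self, ← hch]
      show chord _ i _ (Λ v').1 (Λ v').2 = _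
      rw [hΛv]
    · rw [Function.update_of_ne h]
      show chord _ i _ (Λ v').1 (Λ v').2 = _
      rw [hΛv' v' h]
      have h2 : (bb (map (σ v') f) i (diag σ y v') * σ v' (2 * y none) -
          2 * diag σ y v' none * σ v' (bb f i y)) = 0 := by
        have h1 : bb (map (σ v') f) i (diag σ y v') = σ v' (bb f i y) := bb_map (σ v') f i y
        rw [h1, map_mul, map_ofNat]
        show _ - 2 * σ v' (y none) * _ = _
        ring
      rw [chord, h2, zero_div, mul_zero, mul_zero, shift_zero]
  have hcont : ContinuousAt Φ Λ := by
    rw [continuousAt_pi]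
    intro v'
    have h1 : ContinuousAt (fun q : ∀ v', L v' × L v' => q v') Λ := (continuous_apply v').continuousAt
    exact continuousAt_chord _ i continuousAt_const (continuousAt_fst.comp h1)
      (continuousAt_snd.comp h1) (hlegal v')
  have hdense : DenseRange fun (q : K × K) (v' : V) => (σ v' q.1, σ v' q.2) := by
    have h1 := hσ.prodMap hσ
    let e : (∀ v', L v') × (∀ v', L v') → ∀ v', L v' × L v' := fun p v' => (p.1 v', p.2 v')
    have h2 : Function.Surjective e := fun q => ⟨(fun v' => (q v').1, fun v' => (q v').2), rfl⟩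
    have h3 : Continuous e := by
      refine continuous_pi fun v' => ?_
      exact ((continuous_apply v').comp continuous_fst).prodMk
        ((continuous_apply v').comp continuous_snd)
    exact (h2.denseRange.comp h1 h3)
  let s' : Set (∀ v', L v' × L v') := {q | ∃ l m : K, l ^ 2 - aa f i y * m ^ 2 ≠ 0 ∧
    q = fun v' => (σ v' l, σ v' m)}
  have hs' : Λ ∈ closure s' := by
    rw [mem_closure_iff_nhds]
    intro U hU
    have h1 : {q : ∀ v', L v' × L v' | (q v).1 ^ 2 - aa (map (σ v) f) i (diag σ y v) *
        (q v).2 ^ 2 ≠ 0} ∈ 𝓝 Λ := by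
      have h2 : Continuous fun q : ∀ v', L v' × L v' => (q v).1 ^ 2 -
          aa (map (σ v) f) i (diag σ y v) * (q v).2 ^ 2 := by
        have h3 : Continuous fun q : ∀ v', L v' × L v' => q v := continuous_apply v
        exact ((continuous_fst.comp h3).pow 2).sub
          (continuous_const.mul ((continuous_snd.comp h3).pow 2))
      exact h2.continuousAt.eventually_ne (hlegal v)
    obtain ⟨q, hq⟩ := hdense.exists_mem_open isOpen_interior
      ⟨Λ, mem_interior_iff_mem_nhds.2 (Filter.inter_mem hU h1)⟩
    have hq2 := interior_subset hq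
    refine ⟨_, hq2.1, q.1, q.2, ?_, rfl⟩
    intro h0
    apply hq2.2
    have h4 : aa (map (σ v) f) i (diag σ y v) = σ v (aa f i y) := aa_map (σ v) f i y
    rw [h4]
    have h5 := congrArg (σ v) h0
    rw [map_sub, map_mul, map_pow, map_pow, map_zero] at h5
    exact h5
  rw [← hΦ]
  have h6 := mem_closure_image hcont hs'
  refine closure_mono ?_ h6
  rintro _ ⟨_, ⟨l, m, hlm', rfl⟩, rfl⟩
  refine ⟨chord f i y l m, chord_mem hf hy hlm', ?_⟩
  funext v'
  exact chord_map (σ v') f i y l m

/-- Moves from a `K`-point along a line. -/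
theorem move_line [Fintype τ] [DecidableEq τ] [DecidableEq V]
    (hσ : DenseRange fun (x : K) (v : V) => σ v x) {f : MvPolynomial τ K} {i : τ}
    (hf : f.degreeOf i ≤ 2) {y : Option τ → K} (hy : y ∈ cover f) (hd : disc f i y = 0) (v : V)
    (x : L v) :
    Function.update (diag σ y) v (shift i (diag σ y v) (σ v (bb f i y) * x)
      (σ v (2 * y none) * x)) ∈ Lim σ f := by
  let Φ : (∀ v', L v') → ∀ v', Option τ → L v' := fun q v' =>
    shift i (diag σ y v') (σ v' (bb f i y) * q v') (σ v' (2 * y none) * q v')
  let Λ : ∀ v', L v' := Function.update (fun _ => 0) v x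
  have hΦ : Φ Λ = Function.update (diag σ y) v (shift i (diag σ y v) (σ v (bb f i y) * x)
      (σ v (2 * y none) * x)) := by
    funext v'
    by_cases h : v' = v
    · subst h
      rw [Function.update_self]
      show shift i _ (_ * Λ v') (_ * Λ v') = _
      rw [show Λ v' = x from Function.update_self v' _ _]
    · rw [Function.update_of_ne h]
      show shift i _ (_ * Λ v') (_ * Λ v') = _
      rw [show Λ v' = 0 from Function.update_of_ne h _ _, mul_zero, mul_zero, shift_zero]
  have hcont : ContinuousAt Φ Λ := by
    rw [continuousAt_pi]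
    intro v'
    have h1 : ContinuousAt (fun q : ∀ v', L v' => q v') Λ := (continuous_apply v').continuousAt
    exact continuousAt_shift i continuousAt_const (continuousAt_const.mul h1)
      (continuousAt_const.mul h1)
  rw [← hΦ]
  have h6 := mem_closure_image hcont (hσ Λ)
  refine closure_mono ?_ h6
  rintro _ ⟨_, ⟨r, rfl⟩, rfl⟩
  refine ⟨shift i y (bb f i y * r) (2 * y none * r), ?_, ?_⟩
  · rw [shift_mem hf hy]
    rw [disc] at hd
    linear_combination r ^ 2 * hd
  · funext v'
    show (fun l => σ v' (shift i y (bb f i y * r) (2 * y none * r) l)) = _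
    rw [shift_map, map_mul, map_mul]
    rfl

/-- An elementary move at one place. -/
def Legal {F : Type} [Field F] [DecidableEq τ] (g : MvPolynomial τ F) (i : τ)
    (y : Option τ → F) (w s : F) : Prop :=
  disc g i y ≠ 0 ∨ (y none ≠ 0 ∧ y none + w ≠ 0 ∧ 2 * y none * w = bb g i y * s)

theorem step [Fintype τ] [DecidableEq τ] [DecidableEq V] [∀ v, CompleteSpace (L v)]
    (hσ : DenseRange fun (x : K) (v : V) => σ v x) {f : MvPolynomial τ K} {i : τ}
    (hf : f.degreeOf i ≤ 2) {P : ∀ v, Option τ → L v} (hP : P ∈ Lim σ f)
    (v : V) (w s : L v) (hPv : P v ∈ cover (map (σ v) f))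
    (hB : shift i (P v) w s ∈ cover (map (σ v) f)) (hcond : Legal (map (σ v) f) i (P v) w s) :
    Function.update P v (shift i (P v) w s) ∈ Lim σ f := by
  have := charZero_L σ v
  have hfv := degreeOf_map_le (σ v) f i hf
  obtain ⟨u, hu, huP⟩ := mem_closure_iff_ultrafilter.1 hP
  have hclosed : IsClosed (Lim σ f) := isClosed_closure
  have hev : Tendsto (fun Q : ∀ v, Option τ → L v => Q v) u (𝓝 (P v)) :=
    ((continuous_apply v).tendsto P).mono_left huP
  have hevn : Tendsto (fun Q : ∀ v, Option τ → L v => Q v none) u (𝓝 (P v none)) :=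
    ((continuous_apply none).tendsto (P v)).comp hev
  have hupd : ∀ T : (∀ v, Option τ → L v) → (Option τ → L v), ContinuousAt T P →
      Tendsto (fun Q => Function.update Q v (T Q)) u (𝓝 (Function.update P v (T P))) := by
    intro T hT
    exact (tendsto_id.mono_left huP).update v (hT.tendsto.mono_left huP)
  have hcv : ContinuousAt (fun Q : ∀ v, Option τ → L v => Q v) P :=
    (continuous_apply v).continuousAt
  have hcn : ContinuousAt (fun Q : ∀ v, Option τ → L v => Q v none) P :=
    continuousAt_pi.1 hcv none
  by_cases hd : disc (map (σ v) f) i (P v) = 0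
  · obtain ⟨hw1, hw2, htan⟩ : P v none ≠ 0 ∧ P v none + w ≠ 0 ∧
        2 * P v none * w = bb (map (σ v) f) i (P v) * s := by
      rcases hcond with h | h
      · exact absurd hd h
      · exact h
    have hne : ∀ᶠ Q in (u : Filter (∀ v, Option τ → L v)), Q v none ≠ 0 := hevn.eventually_ne hw1
    have h2w : (2 : L v) * P v none ≠ 0 := mul_ne_zero two_ne_zero hw1
    by_cases hz : ∀ᶠ Q in (u : Filter (∀ v, Option τ → L v)), disc (map (σ v) f) i (Q v) = 0
    · -- lines
      let T : (∀ v, Option τ → L v) → (Option τ → L v) := fun Q =>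
        shift i (Q v) (bb (map (σ v) f) i (Q v) * (s / (2 * Q v none)))
          (2 * Q v none * (s / (2 * Q v none)))
      have hdiv : ContinuousAt (fun Q : ∀ v, Option τ → L v => s / (2 * Q v none)) P :=
        continuousAt_const.div (continuousAt_const.mul hcn) h2w
      have hT : ContinuousAt T P := by
        refine continuousAt_shift i hcv (ContinuousAt.mul ?_ hdiv)
          ((continuousAt_const.mul hcn).mul hdiv)
        exact (continuous_bb _ i).continuousAt.comp hcv
      have hTP : T P = shift i (P v) w s := by
        show shift i (P v) (bb (map (σ v) f) i (P v) * (s / (2 * P v none)))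
          (2 * P v none * (s / (2 * P v none))) = _
        congr 1
        · rw [← mul_div_assoc, ← htan, mul_div_cancel_left₀ _ h2w]
        · rw [mul_div_cancel₀ _ h2w]
      rw [← hTP]
      refine hclosed.mem_of_tendsto (hupd T hT) ?_
      filter_upwards [hne, hz, hu] with Q hQ1 hQ2 hQ3
      obtain ⟨y, hy, rfl⟩ := hQ3
      have hdy : disc f i y = 0 := by
        have h1 : disc (map (σ v) f) i (fun l => σ v (y l)) = 0 := hQ2
        rw [disc_map] at h1
        exact (σ v).injective (by rw [h1, map_zero])
      have h3 := move_line σ hσ hf hy hdy v (s / (2 * σ v (y none)))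
      have h4 : σ v (2 * y none) = 2 * diag σ y v none := by
        rw [map_mul, map_ofNat]; rfl
      have h5 : bb (map (σ v) f) i (diag σ y v) = σ v (bb f i y) := bb_map (σ v) f i y
      rw [h4, ← h5] at h3
      exact h3
    · -- smooth conics
      have hnz : ∀ᶠ Q in (u : Filter (∀ v, Option τ → L v)), disc (map (σ v) f) i (Q v) ≠ 0 :=
        Ultrafilter.eventually_not.2 hz
      obtain ⟨g, hg1, hg2, hg3⟩ := exists_sqrt hw2
      let H : (∀ v, Option τ → L v) → L v := fun Q => aa (map (σ v) f) i (Q v) * s ^ 2 +
        bb (map (σ v) f) i (Q v) * s + Q v none ^ 2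
      have hH : ContinuousAt H P :=
        ((((continuous_aa _ i).continuousAt.comp hcv).mul continuousAt_const).add
          (((continuous_bb _ i).continuousAt.comp hcv).mul continuousAt_const)).add (hcn.pow 2)
      have hHP : H P = (P v none + w) ^ 2 := ((shift_mem hfv hPv w s).1 hB).symm
      let T : (∀ v, Option τ → L v) → (Option τ → L v) := fun Q =>
        shift i (Q v) (g (H Q) - Q v none) s
      have hgH : ContinuousAt (fun Q => g (H Q)) P := by
        refine ContinuousAt.comp (g := g) ?_ hH
        rw [hHP]
        exact hg1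
      have hT : ContinuousAt T P :=
        continuousAt_shift i hcv (hgH.sub hcn) continuousAt_const
      have hTP : T P = shift i (P v) w s := by
        show shift i (P v) (g (H P) - P v none) s = _
        rw [hHP, hg2, add_sub_cancel_left]
      rw [← hTP]
      refine hclosed.mem_of_tendsto (hupd T hT) ?_
      have hsq : ∀ᶠ Q in (u : Filter (∀ v, Option τ → L v)), g (H Q) ^ 2 = H Q := by
        have h1 : Tendsto H u (𝓝 ((P v none + w) ^ 2)) := by
          rw [← hHP]
          exact hH.tendsto.mono_left huP
        exact h1.eventually hg3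
      filter_upwards [hsq, hnz, hu] with Q hQ1 hQ2 hQ3
      obtain ⟨y, hy, rfl⟩ := hQ3
      have hdy : disc f i y ≠ 0 := by
        intro h0
        apply hQ2
        show disc (map (σ v) f) i (fun l => σ v (y l)) = 0
        rw [disc_map, h0, map_zero]
      refine move_smooth σ hσ hf hy hdy v _ _ ?_
      have hyv : diag σ y v ∈ cover (map (σ v) f) := map_mem_cover (σ v) hy
      rw [shift_mem hfv hyv, add_sub_cancel]
      exact hQ1
  · obtain ⟨lam, mu, hlm, hch⟩ := exists_chord hfv hPv hd hB
    let T : (∀ v, Option τ → L v) → (Option τ → L v) := fun Q =>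
      chord (map (σ v) f) i (Q v) lam mu
    have hT : ContinuousAt T P :=
      continuousAt_chord _ i hcv continuousAt_const continuousAt_const hlm
    have hTP : T P = shift i (P v) w s := hch
    rw [← hTP]
    refine hclosed.mem_of_tendsto (hupd T hT) ?_
    have hnz : ∀ᶠ Q in (u : Filter (∀ v, Option τ → L v)), disc (map (σ v) f) i (Q v) ≠ 0 :=
      (((continuous_disc _ i).tendsto (P v)).comp hev).eventually_ne hd
    have hleg : ∀ᶠ Q in (u : Filter (∀ v, Option τ → L v)),
        lam ^ 2 - aa (map (σ v) f) i (Q v) * mu ^ 2 ≠ 0 := by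
      have h1 : Continuous fun z : Option τ → L v => lam ^ 2 - aa (map (σ v) f) i z * mu ^ 2 :=
        continuous_const.sub ((continuous_aa _ i).mul continuous_const)
      exact ((h1.tendsto (P v)).comp hev).eventually_ne hlm
    filter_upwards [hleg, hnz, hu] with Q hQ1 hQ2 hQ3
    obtain ⟨y, hy, rfl⟩ := hQ3
    have hdy : disc f i y ≠ 0 := by
      intro h0
      apply hQ2
      show disc (map (σ v) f) i (fun l => σ v (y l)) = 0
      rw [disc_map, h0, map_zero]
    have hyv : diag σ y v ∈ cover (map (σ v) f) := map_mem_cover (σ v) hy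
    exact move_smooth σ hσ hf hy hdy v _ _ (chord_mem hfv hyv hQ1)

end Pool.Agent.TH178.WA
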